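import Pool.Agent.H919.FP.Sch

/-!
# The fibre of `s` over a section with values in `O` (task FP/Fib of helper919, by helper658)
-/

open CategoryTheory Limits AlgebraicGeometry

namespace Pool.Agent.H658.FP

/-- a map whose image lies in `U` factors through `U` -/
theorem exists_lift {S V : Scheme.{0}} (U : S.Opens) (m : V ⟶ S) (h : ∀ v : V, m v ∈ U) :
    ∃ k : V ⟶ U, k ≫ U.ι = m := by
  have hr : Set.range m ⊆ Set.range U.ι := by
    rintro _ ⟨v, rfl⟩
    rw [Scheme.Opens.range_ι]
    exact h v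
  exact ⟨IsOpenImmersion.lift U.ι m hr, IsOpenImmersion.lift_fac _ _ _⟩

/-- two maps landing over `U` with the same composite with `ρ` agree -/
theorem unique_over {S R V : Scheme.{0}} (ρ : R ⟶ S) (U : S.Opens) [IsIso (ρ ∣_ U)]
    (f g : V ⟶ R) (h : f ≫ ρ = g ≫ ρ) (hU : ∀ v : V, (f ≫ ρ) v ∈ U) : f = g := by
  obtain ⟨k, hk⟩ := exists_lift U (f ≫ ρ) hU
  have hp := isPullback_morphismRestrict ρ U
  have h1 : hp.lift k f hk = hp.lift k g (hk.trans h) := by
    rw [← cancel_mono (ρ ∣_ U), hp.lift_fst, hp.lift_fst]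
  have h2 := congrArg (fun m => m ≫ (ρ ⁻¹ᵁ U).ι) h1
  simp only [hp.lift_snd] at h2
  exact h2

/-- maps into `U` lift to `R` -/
theorem exists_over {S R V : Scheme.{0}} (ρ : R ⟶ S) (U : S.Opens) [IsIso (ρ ∣_ U)]
    (m : V ⟶ S) (hU : ∀ v : V, m v ∈ U) : ∃ θ : V ⟶ R, θ ≫ ρ = m := by
  obtain ⟨k, hk⟩ := exists_lift U m hU
  have hp := isPullback_morphismRestrict ρ U
  refine ⟨k ≫ inv (ρ ∣_ U) ≫ (ρ ⁻¹ᵁ U).ι, ?_⟩
  rw [Category.assoc, Category.assoc, ← hp.w, IsIso.inv_hom_id_assoc, hk]

theorem t_Fib : Pool.Agent.H919.FP.S_Fib := by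
  intro S₀ T R str O ρ _ s t hs ht hst x₀ hx₀ hxO hF
  set U : (pullback str str).Opens :=
    (pullback.fst str str) ⁻¹ᵁ O ⊓ (pullback.snd str str) ⁻¹ᵁ O with hU
  have hmemU : ∀ p : (pullback str str : Scheme.{0}), p ∈ U ↔
      pullback.fst str str p ∈ O ∧ pullback.snd str str p ∈ O := fun p => Iff.rfl
  have hstr : s ≫ str = t ≫ str := by
    rw [← hs, ← ht, Category.assoc, Category.assoc, pullback.condition]
  have hcond : pullback.fst x₀ s ≫ x₀ = pullback.snd x₀ s ≫ s := pullback.condition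
  -- points of the fibre
  have hsF : ∀ z : (pullback x₀ s : Scheme.{0}), s (pullback.snd x₀ s z) ∈ O := by
    intro z
    have h1 : s (pullback.snd x₀ s z) = x₀ (pullback.fst x₀ s z) := by
      rw [← Scheme.Hom.comp_apply, ← Scheme.Hom.comp_apply, hcond]
    rw [h1]
    exact hxO _
  have htF : ∀ z : (pullback x₀ s : Scheme.{0}), t (pullback.snd x₀ s z) ∈ O := fun z =>
    (hst _).1 (hsF z)
  obtain ⟨g', hg'⟩ := exists_lift O (pullback.snd x₀ s ≫ t) (fun z => by
    rw [Scheme.Hom.comp_apply]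
    exact htF z)
  -- the map from `O` to `R`
  have hm : (O.ι ≫ str ≫ x₀) ≫ str = O.ι ≫ str := by
    rw [Category.assoc, Category.assoc, hx₀, Category.comp_id]
  obtain ⟨θ, hθ⟩ := exists_over ρ U (pullback.lift (O.ι ≫ str ≫ x₀) O.ι hm) (fun v => by
    rw [hmemU]
    rw [← Scheme.Hom.comp_apply, ← Scheme.Hom.comp_apply, pullback.lift_fst, pullback.lift_snd]
    refine ⟨?_, ?_⟩
    · rw [Scheme.Hom.comp_apply, Scheme.Hom.comp_apply]
      exact hxO _
    · exact v.2)
  have hθs : θ ≫ s = O.ι ≫ str ≫ x₀ := by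
    rw [← hs, ← Category.assoc, hθ, pullback.lift_fst]
  have hθt : θ ≫ t = O.ι := by
    rw [← ht, ← Category.assoc, hθ, pullback.lift_snd]
  let q : (O : Scheme.{0}) ⟶ pullback x₀ s := pullback.lift (O.ι ≫ str) θ (by
    rw [hθs, Category.assoc])
  have hq1 : q ≫ g' = 𝟙 _ := by
    rw [← cancel_mono O.ι, Category.assoc, hg', Category.id_comp]
    rw [← Category.assoc, pullback.lift_snd, hθt]
  have hq2 : g' ≫ q = 𝟙 _ := by
    apply pullback.hom_ext
    · rw [Category.assoc, Category.id_comp, pullback.lift_fst, ← Category.assoc, hg',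
        Category.assoc, ← hstr, ← Category.assoc, ← hcond, Category.assoc, hx₀, Category.comp_id]
    · rw [Category.assoc, Category.id_comp, pullback.lift_snd]
      refine (unique_over ρ U _ _ ?_ ?_).symm
      · rw [Category.assoc, hθ]
        apply pullback.hom_ext
        · rw [Category.assoc, hs, Category.assoc, pullback.lift_fst, ← Category.assoc g', hg',
            Category.assoc, ← Category.assoc t, ← hstr, Category.assoc, ← Category.assoc _ s,
            ← hcond, Category.assoc, ← Category.assoc x₀, hx₀, Category.id_comp]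
        · rw [Category.assoc, ht, Category.assoc, pullback.lift_snd, hg']
      · intro z
        have e1 : ∀ r : R, pullback.fst str str (ρ r) = s r := fun r => by
          rw [← Scheme.Hom.comp_apply, hs]
        have e2 : ∀ r : R, pullback.snd str str (ρ r) = t r := fun r => by
          rw [← Scheme.Hom.comp_apply, ht]
        rw [hmemU, Scheme.Hom.comp_apply, e1, e2]
        exact ⟨hsF z, htF z⟩
  have hiso : IsIso g' := ⟨q, hq2, hq1⟩
  exact IsAffine.of_isIso (inv g')

end Pool.Agent.H658.FP
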